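import Pool.Agent.Lib_helper51.TM32.Defs2

/-!
TM32, block PH: the weight.
-/

set_option autoImplicit false

namespace Pool.Agent.TM32

open Zsqrtd

/-- `|w|²` -/
private noncomputable def PP (w : Z8) : ℝ := (gg w : ℝ) + Real.sqrt 2 * hh w

/-- `|w'|²` -/
private noncomputable def QQ (w : Z8) : ℝ := (gg w : ℝ) - Real.sqrt 2 * hh w

/-- `log ε` -/
private noncomputable def le : ℝ := Real.log (1 + Real.sqrt 2)

private theorem s2 : Real.sqrt 2 ^ 2 = 2 := Real.sq_sqrt (by norm_num)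

private theorem s2_mul : Real.sqrt 2 * Real.sqrt 2 = 2 := Real.mul_self_sqrt (by norm_num)

private theorem s2_pos : 0 < Real.sqrt 2 := Real.sqrt_pos.2 (by norm_num)

private theorem s2_lt : Real.sqrt 2 < 3 / 2 := by
  rw [Real.sqrt_lt' (by norm_num)]; norm_num

private theorem s2_gt : 1 < Real.sqrt 2 := by
  rw [Real.lt_sqrt (by norm_num)]; norm_num

private theorem le_ge : (1 : ℝ) / 2 ≤ le := by
  have h1 : Real.log 2 ≤ le := Real.log_le_log (by norm_num) (by have := s2_gt; linarith)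
  have h2 := Real.log_two_gt_d9
  linarith

private theorem le_pos : 0 < le := by have := le_ge; linarith

private theorem PQ (w : Z8) : PP w * QQ w = N8 w := by
  unfold PP QQ
  rw [N8_eq]
  push_cast
  have := s2_mul
  linear_combination (-(hh w : ℝ) ^ 2) * this

private theorem P_add_Q (w : Z8) : PP w + QQ w = 2 * gg w := by unfold PP QQ; ring

private theorem PQ_pos {w : Z8} (hw : w ≠ 0) : 0 < PP w ∧ 0 < QQ w := by
  have h1 : (0 : ℝ) < N8 w := by exact_mod_cast N8_pos hw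
  rw [← PQ] at h1
  have h2 : (0 : ℝ) ≤ gg w := by exact_mod_cast gg_nonneg w
  have h3 := P_add_Q w
  rcases mul_pos_iff.1 h1 with h | h
  · exact h
  · exfalso; linarith [h.1, h.2]

private theorem Lw_eq {w : Z8} (hw : w ≠ 0) : Lw w = Real.log (PP w) - Real.log (QQ w) := by
  obtain ⟨h1, h2⟩ := PQ_pos hw
  unfold Lw
  exact Real.log_div h1.ne' h2.ne'

private theorem Ph_eq (w : Z8) : Ph w = max 0 (1 - |Lw w| / (8 * le)) := rfl

theorem Ph_bounds (w : Z8) : 0 ≤ Ph w ∧ Ph w ≤ 1 := by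
  rw [Ph_eq]
  refine ⟨le_max_left _ _, max_le zero_le_one ?_⟩
  have h : 0 ≤ |Lw w| / (8 * le) := div_nonneg (abs_nonneg _) (by have := le_pos; linarith)
  linarith

private theorem gg_mul (x y : Z8) : gg (x * y) = gg x * gg y + 2 * (hh x * hh y) := by
  unfold gg hh
  simp only [QuadraticAlgebra.re_mul, QuadraticAlgebra.im_mul, Zsqrtd.re_add, Zsqrtd.im_add,
    Zsqrtd.re_mul, Zsqrtd.im_mul, Zsqrtd.re_one, Zsqrtd.im_one]
  ring

private theorem hh_mul (x y : Z8) : hh (x * y) = gg x * hh y + hh x * gg y := by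
  unfold gg hh
  simp only [QuadraticAlgebra.re_mul, QuadraticAlgebra.im_mul, Zsqrtd.re_add, Zsqrtd.im_add,
    Zsqrtd.re_mul, Zsqrtd.im_mul, Zsqrtd.re_one, Zsqrtd.im_one]
  ring

private theorem PP_mul (x y : Z8) : PP (x * y) = PP x * PP y := by
  unfold PP
  rw [gg_mul, hh_mul]
  push_cast
  have := s2_mul
  linear_combination (-(hh x : ℝ) * hh y) * this

private theorem QQ_mul (x y : Z8) : QQ (x * y) = QQ x * QQ y := by
  unfold QQ
  rw [gg_mul, hh_mul]
  push_cast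
  have := s2_mul
  linear_combination (-(hh x : ℝ) * hh y) * this

private theorem gg_eps : gg eps = 3 := by unfold gg; norm_num

private theorem hh_eps : hh eps = 2 := by unfold hh; norm_num

private theorem gg_zet : gg zet = 1 := by unfold gg; norm_num

private theorem hh_zet : hh zet = 0 := by unfold hh; norm_num

theorem Ph_support {w : Z8} (h : Ph w ≠ 0) : gg w ^ 2 ≤ 1200 * N8 w := by
  rcases eq_or_ne w 0 with rfl | hw
  · have : gg 0 = 0 := by unfold gg; norm_num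
    rw [this]
    have := N8_nonneg 0
    nlinarith
  obtain ⟨hP, hQ⟩ := PQ_pos hw
  have hle := le_pos
  have hL : |Lw w| < 8 * le := by
    by_contra hc
    push Not at hc
    apply h
    rw [Ph_eq]
    refine max_eq_left ?_
    have : 1 ≤ |Lw w| / (8 * le) := by
      rw [le_div_iff₀ (by linarith)]
      linarith
    linarith
  rw [Lw_eq hw, abs_lt] at hL
  have h8 : 8 * le = Real.log ((1 + Real.sqrt 2) ^ 8) := by
    rw [Real.log_pow]; rfl
  have hb : (1 + Real.sqrt 2) ^ 8 ≤ 1200 := by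
    have e : (1 + Real.sqrt 2) ^ 8 = 577 + 408 * Real.sqrt 2 := by
      have := s2
      have e2 : (1 + Real.sqrt 2) ^ 2 = 3 + 2 * Real.sqrt 2 := by linear_combination this
      have e4 : (1 + Real.sqrt 2) ^ 4 = 17 + 12 * Real.sqrt 2 := by
        rw [show (1 + Real.sqrt 2) ^ 4 = ((1 + Real.sqrt 2) ^ 2) ^ 2 by ring, e2]
        linear_combination 4 * this
      rw [show (1 + Real.sqrt 2) ^ 8 = ((1 + Real.sqrt 2) ^ 4) ^ 2 by ring, e4]
      linear_combination 144 * this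
    rw [e]
    have := s2_lt
    linarith
  have hE : (0 : ℝ) < (1 + Real.sqrt 2) ^ 8 := by have := s2_pos; positivity
  have h1 : PP w ≤ 1200 * QQ w := by
    have : Real.log (PP w) ≤ Real.log ((1 + Real.sqrt 2) ^ 8 * QQ w) := by
      rw [Real.log_mul hE.ne' hQ.ne', ← h8]; linarith [hL.2]
    have := (Real.log_le_log_iff hP (mul_pos hE hQ)).1 this
    nlinarith
  have h2 : QQ w ≤ 1200 * PP w := by
    have : Real.log (QQ w) ≤ Real.log ((1 + Real.sqrt 2) ^ 8 * PP w) := by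
      rw [Real.log_mul hE.ne' hP.ne', ← h8]; linarith [hL.1]
    have := (Real.log_le_log_iff hQ (mul_pos hE hP)).1 this
    nlinarith
  have h3 : ((gg w : ℝ)) ^ 2 ≤ 1200 * N8 w := by
    rw [← PQ]
    have h4 : (gg w : ℝ) = (PP w + QQ w) / 2 := by rw [P_add_Q]; ring
    rw [h4]
    nlinarith [mul_le_mul_of_nonneg_left h1 hP.le, mul_le_mul_of_nonneg_left h2 hQ.le,
      mul_pos hP hQ]
  exact_mod_cast h3

theorem Ph_i (w : Z8) : Ph (zet ^ 2 * w) = Ph w := by
  have hg : gg (zet ^ 2 * w) = gg w := by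
    rw [pow_two, gg_mul, gg_mul, hh_mul, gg_zet, hh_zet]; ring
  have hh' : hh (zet ^ 2 * w) = hh w := by
    rw [pow_two, hh_mul, gg_mul, hh_mul, gg_zet, hh_zet]; ring
  unfold Ph Lw
  rw [hg, hh']

/-- the tent functions sum to one -/
private theorem tent (x : ℝ) :
    (Function.support (fun j : ℤ => max 0 (1 - |x + j|))).Finite ∧
    ∑ᶠ j : ℤ, max 0 (1 - |x + j|) = 1 := by
  have h0 := Int.floor_le x
  have h1 := Int.lt_floor_add_one x
  have hsub : Function.support (fun j : ℤ => max 0 (1 - |x + j|)) ⊆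
      (({-⌊x⌋, -⌊x⌋ - 1} : Finset ℤ) : Set ℤ) := by
    intro j hj
    rw [Function.mem_support] at hj
    have hj' : |x + j| < 1 := by
      by_contra hc
      push Not at hc
      exact hj (max_eq_left (by linarith))
    rw [abs_lt] at hj'
    have a1 : (-⌊x⌋ : ℝ) - 2 < j := by linarith [hj'.1]
    have a2 : (j : ℝ) < -⌊x⌋ + 1 := by linarith [hj'.2]
    have b1 : -⌊x⌋ - 2 < j := by exact_mod_cast a1
    have b2 : j < -⌊x⌋ + 1 := by exact_mod_cast a2
    simp only [Finset.coe_insert, Finset.coe_singleton, Set.mem_insert_iff, Set.mem_singleton_iff]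
    omega
  refine ⟨(Finset.finite_toSet _).subset hsub, ?_⟩
  rw [finsum_eq_sum_of_support_subset _ hsub, Finset.sum_pair (by omega)]
  have e1 : max 0 (1 - |x + ((-⌊x⌋ : ℤ) : ℝ)|) = 1 - (x - ⌊x⌋) := by
    push_cast
    rw [abs_of_nonneg (by linarith), max_eq_right (by linarith)]
    ring
  have e2 : max 0 (1 - |x + ((-⌊x⌋ - 1 : ℤ) : ℝ)|) = x - ⌊x⌋ := by
    push_cast
    rw [abs_of_nonpos (by linarith), max_eq_right (by linarith)]
    ring
  rw [e1, e2]
  ring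

/-- `u` = a unit with value `ε²` -/
theorem Ph_sum {w : Z8} (hw : w ≠ 0) (u : Z8ˣ) (hu : (u : Z8) = eps ^ 2) :
    (Function.support (fun j : ℤ => Ph (((u ^ j : Z8ˣ) : Z8) * w))).Finite ∧
    ∑ᶠ j : ℤ, Ph (((u ^ j : Z8ˣ) : Z8) * w) = 1 := by
  have hs := s2_pos
  have hle := le_pos
  -- `L` of a unit times an element
  have hmul : ∀ (v : Z8ˣ) (x : Z8), x ≠ 0 → Lw ((v : Z8) * x) = Lw (v : Z8) + Lw x := by
    intro v x hx
    have hv : (v : Z8) ≠ 0 := v.ne_zero
    obtain ⟨p1, q1⟩ := PQ_pos hv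
    obtain ⟨p2, q2⟩ := PQ_pos hx
    rw [Lw_eq (mul_ne_zero hv hx), Lw_eq hv, Lw_eq hx, PP_mul, QQ_mul,
      Real.log_mul p1.ne' p2.ne', Real.log_mul q1.ne' q2.ne']
    ring
  have hu1 : Lw (u : Z8) = 8 * le := by
    rw [Lw_eq u.ne_zero, hu, pow_two, PP_mul, QQ_mul]
    have hP : PP eps = (1 + Real.sqrt 2) ^ 2 := by
      unfold PP; rw [gg_eps, hh_eps]; push_cast
      have := s2
      linear_combination -this
    have hQ : QQ eps = ((1 + Real.sqrt 2) ^ 2)⁻¹ := by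
      unfold QQ; rw [gg_eps, hh_eps]; push_cast
      refine eq_inv_of_mul_eq_one_left ?_
      have := s2
      linear_combination (-(1 : ℝ) - 2 * Real.sqrt 2) * this
    rw [hP, hQ, ← mul_inv, Real.log_inv, ← pow_add, Real.log_pow]
    unfold le
    push_cast
    ring
  have hpow : ∀ j : ℤ, Lw (((u ^ j : Z8ˣ) : Z8) * w) = Lw w + 8 * le * j := by
    intro j
    induction j using Int.induction_on with
    | zero => simp
    | succ n ih =>
      have e : ((u ^ ((n : ℤ) + 1) : Z8ˣ) : Z8) * w = (u : Z8) * (((u ^ (n : ℤ) : Z8ˣ) : Z8) * w) := by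
        rw [zpow_add, zpow_one, Units.val_mul]; ring
      rw [e, hmul u _ (mul_ne_zero (Units.ne_zero _) hw), ih, hu1]
      push_cast; ring
    | pred n ih =>
      have e : ((u ^ (-(n : ℤ)) : Z8ˣ) : Z8) * w = (u : Z8) * (((u ^ (-(n : ℤ) - 1) : Z8ˣ) : Z8) * w) := by
        rw [← mul_assoc, ← Units.val_mul]
        congr 2
        rw [← zpow_one_add]
        congr 1
        ring
      rw [e, hmul u _ (mul_ne_zero (Units.ne_zero _) hw), hu1] at ih
      push_cast at ih ⊢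
      linarith
  have hfun : ∀ j : ℤ, Ph (((u ^ j : Z8ˣ) : Z8) * w) = max 0 (1 - |Lw w / (8 * le) + j|) := by
    intro j
    rw [Ph_eq, hpow]
    congr 2
    rw [← abs_of_pos (show 0 < 8 * le by linarith), ← abs_div, abs_of_pos (show 0 < 8 * le by linarith)]
    congr 1
    field_simp
  have ht := tent (Lw w / (8 * le))
  simp only [hfun]
  exact ht

private theorem log_lip {a b m : ℝ} (hm : 0 < m) (ha : m ≤ a) (hb : m ≤ b) :
    |Real.log a - Real.log b| ≤ |a - b| / m := by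
  have key : ∀ x y : ℝ, m ≤ x → m ≤ y → Real.log x - Real.log y ≤ |x - y| / m := by
    intro x y hx hy
    have hx0 : 0 < x := hm.trans_le hx
    have hy0 : 0 < y := hm.trans_le hy
    rw [← Real.log_div hx0.ne' hy0.ne']
    have h1 := Real.log_le_sub_one_of_pos (div_pos hx0 hy0)
    have h2 : x / y - 1 = (x - y) / y := by field_simp
    rw [h2] at h1
    refine h1.trans ?_
    calc (x - y) / y ≤ |x - y| / y := by gcongr; exact le_abs_self _
      _ ≤ |x - y| / m := by gcongr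
  rw [abs_le]
  constructor
  · have := key b a hb ha
    rw [abs_sub_comm] at this
    linarith
  · exact key a b ha hb

private theorem max_lip (a b : ℝ) : |max 0 a - max 0 b| ≤ |a - b| := by
  have := abs_max_sub_max_le_abs a b 0
  rwa [max_comm a 0, max_comm b 0] at this

/-- Lipschitz bound; `R` bounds the coordinates, `D` their differences -/
theorem Ph_lip : ∃ C : ℝ, ∀ (w w' : Z8) (R D N₀ : ℝ), 0 < N₀ → N₀ ≤ N8 w → N₀ ≤ N8 w' →
    (∀ v : Z8, v = w ∨ v = w' → |(v.re.re : ℝ)| ≤ R ∧ |(v.re.im : ℝ)| ≤ R ∧ |(v.im.re : ℝ)| ≤ R ∧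
      |(v.im.im : ℝ)| ≤ R) →
    |(w.re.re - w'.re.re : ℝ)| ≤ D → |(w.re.im - w'.re.im : ℝ)| ≤ D →
    |(w.im.re - w'.im.re : ℝ)| ≤ D → |(w.im.im - w'.im.im : ℝ)| ≤ D →
    |Ph w - Ph w'| ≤ C * R ^ 3 * D / N₀ := by
  refine ⟨900, fun w w' R D N₀ hN0 hN hN' hR d1 d2 d3 d4 => ?_⟩
  have hle := le_ge
  have hs1 := s2_lt
  have hs0 := s2_pos
  have hw : w ≠ 0 := by
    rintro rfl
    rw [N8_eq_zero.2 rfl] at hN
    push_cast at hN
    linarith
  have hw' : w' ≠ 0 := by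
    rintro rfl
    rw [N8_eq_zero.2 rfl] at hN'
    push_cast at hN'
    linarith
  have hR0 : 0 ≤ R := (abs_nonneg _).trans (hR w (Or.inl rfl)).1
  have hD0 : 0 ≤ D := (abs_nonneg _).trans d1
  -- upper bounds
  have up : ∀ v : Z8, (v = w ∨ v = w') → PP v ≤ 15 * R ^ 2 ∧ QQ v ≤ 15 * R ^ 2 := by
    intro v hv
    obtain ⟨a1, a2, a3, a4⟩ := hR v hv
    rw [abs_le] at a1 a2 a3 a4
    have g1 : (gg v : ℝ) ≤ 10 * R ^ 2 := by
      unfold gg
      push_cast
      have b1 : ((v.re.re : ℝ) - v.im.im) ^ 2 ≤ 4 * R ^ 2 := by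
        have : |(v.re.re : ℝ) - v.im.im| ≤ 2 * R := abs_le.2 ⟨by linarith [a1.1, a4.2], by linarith [a1.2, a4.1]⟩
        nlinarith [sq_abs ((v.re.re : ℝ) - v.im.im), abs_nonneg ((v.re.re : ℝ) - v.im.im)]
      have b2 : ((v.im.re : ℝ) + v.re.im) ^ 2 ≤ 4 * R ^ 2 := by
        have : |(v.im.re : ℝ) + v.re.im| ≤ 2 * R := abs_le.2 ⟨by linarith [a3.1, a2.1], by linarith [a3.2, a2.2]⟩
        nlinarith [sq_abs ((v.im.re : ℝ) + v.re.im), abs_nonneg ((v.im.re : ℝ) + v.re.im)]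
      have b3 : (v.im.im : ℝ) ^ 2 ≤ R ^ 2 := by nlinarith
      have b4 : (v.re.im : ℝ) ^ 2 ≤ R ^ 2 := by nlinarith
      linarith
    have h1 : |(hh v : ℝ)| ≤ 3 * R ^ 2 := by
      unfold hh
      push_cast
      have b1 : |(v.re.re : ℝ) * v.im.re| ≤ R ^ 2 := by
        rw [abs_mul, pow_two]
        exact mul_le_mul (abs_le.2 a1) (abs_le.2 a3) (abs_nonneg _) hR0
      have b2 : |(v.re.im : ℝ) * v.im.im| ≤ R ^ 2 := by
        rw [abs_mul, pow_two]
        exact mul_le_mul (abs_le.2 a2) (abs_le.2 a4) (abs_nonneg _) hR0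
      rw [abs_le] at b1 b2 ⊢
      constructor <;> nlinarith [b1.1, b1.2, b2.1, b2.2]
    have h2 : |Real.sqrt 2 * (hh v : ℝ)| ≤ 5 * R ^ 2 := by
      rw [abs_mul, abs_of_pos hs0]
      calc Real.sqrt 2 * |(hh v : ℝ)| ≤ (3 / 2) * (3 * R ^ 2) := by
            exact mul_le_mul hs1.le h1 (abs_nonneg _) (by norm_num)
        _ ≤ 5 * R ^ 2 := by nlinarith [sq_nonneg R]
    rw [abs_le] at h2
    unfold PP QQ
    constructor <;> linarith [h2.1, h2.2]
  have hR2 : 0 < R ^ 2 := by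
    by_contra hc
    have e : R ^ 2 = 0 := le_antisymm (not_lt.1 hc) (sq_nonneg R)
    have := (up w (Or.inl rfl)).1
    have h3 := (PQ_pos hw).1
    rw [e] at this
    linarith
  -- lower bounds
  have lo : ∀ v : Z8, (v = w ∨ v = w') → N₀ / (15 * R ^ 2) ≤ PP v ∧ N₀ / (15 * R ^ 2) ≤ QQ v := by
    intro v hv
    have hv0 : v ≠ 0 := by rcases hv with rfl | rfl <;> assumption
    have hNv : N₀ ≤ N8 v := by rcases hv with rfl | rfl <;> assumption
    obtain ⟨p, q⟩ := PQ_pos hv0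
    obtain ⟨u1, u2⟩ := up v hv
    rw [← PQ] at hNv
    rw [div_le_iff₀ (by positivity), div_le_iff₀ (by positivity)]
    constructor
    · nlinarith [mul_le_mul_of_nonneg_left u2 p.le]
    · nlinarith [mul_le_mul_of_nonneg_left u1 q.le]
  -- differences
  have sqd : ∀ x y A B : ℝ, |x - y| ≤ A → |x + y| ≤ B → |x ^ 2 - y ^ 2| ≤ A * B := by
    intro x y A B hA hB
    have : x ^ 2 - y ^ 2 = (x - y) * (x + y) := by ring
    rw [this, abs_mul]
    exact mul_le_mul hA hB (abs_nonneg _) ((abs_nonneg _).trans hA)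
  obtain ⟨r1, r2, r3, r4⟩ := hR w (Or.inl rfl)
  obtain ⟨t1, t2, t3, t4⟩ := hR w' (Or.inr rfl)
  have gd : |(gg w : ℝ) - gg w'| ≤ 20 * R * D := by
    have r1' := abs_le.1 r1
    have r2' := abs_le.1 r2
    have r3' := abs_le.1 r3
    have r4' := abs_le.1 r4
    have t1' := abs_le.1 t1
    have t2' := abs_le.1 t2
    have t3' := abs_le.1 t3
    have t4' := abs_le.1 t4
    have d1' := abs_le.1 d1
    have d2' := abs_le.1 d2
    have d3' := abs_le.1 d3
    have d4' := abs_le.1 d4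
    have c1 := sqd ((w.re.re : ℝ) - w.im.im) ((w'.re.re : ℝ) - w'.im.im) (2 * D) (4 * R)
      (abs_le.2 ⟨by linarith [d1'.1, d4'.2], by linarith [d1'.2, d4'.1]⟩)
      (abs_le.2 ⟨by linarith [r1'.1, r4'.2, t1'.1, t4'.2], by linarith [r1'.2, r4'.1, t1'.2, t4'.1]⟩)
    have c2 := sqd ((w.im.re : ℝ) + w.re.im) ((w'.im.re : ℝ) + w'.re.im) (2 * D) (4 * R)
      (abs_le.2 ⟨by linarith [d3'.1, d2'.1], by linarith [d3'.2, d2'.2]⟩)
      (abs_le.2 ⟨by linarith [r3'.1, r2'.1, t3'.1, t2'.1], by linarith [r3'.2, r2'.2, t3'.2, t2'.2]⟩)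
    have c3 := sqd (w.im.im : ℝ) (w'.im.im : ℝ) D (2 * R) d4
      (abs_le.2 ⟨by linarith [r4'.1, t4'.1], by linarith [r4'.2, t4'.2]⟩)
    have c4 := sqd (w.re.im : ℝ) (w'.re.im : ℝ) D (2 * R) d2
      (abs_le.2 ⟨by linarith [r2'.1, t2'.1], by linarith [r2'.2, t2'.2]⟩)
    rw [abs_le] at c1 c2 c3 c4 ⊢
    unfold gg
    push_cast
    constructor
    · linarith [c1.1, c2.1, c3.1, c4.1]
    · linarith [c1.2, c2.2, c3.2, c4.2]
  have prd : ∀ x y x' y' : ℝ, |x - x'| ≤ D → |y - y'| ≤ D → |y| ≤ R → |x'| ≤ R →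
      |x * y - x' * y'| ≤ 2 * (R * D) := by
    intro x y x' y' h1 h2 h3 h4
    have e : x * y - x' * y' = (x - x') * y + x' * (y - y') := by ring
    rw [e]
    refine (abs_add_le _ _).trans ?_
    rw [abs_mul, abs_mul]
    have e1 : |x - x'| * |y| ≤ D * R := mul_le_mul h1 h3 (abs_nonneg _) hD0
    have e2 : |x'| * |y - y'| ≤ R * D := mul_le_mul h4 h2 (abs_nonneg _) hR0
    linarith
  have hd : |(hh w : ℝ) - hh w'| ≤ 6 * R * D := by
    have c1 := prd (w.re.re : ℝ) (w.im.re : ℝ) (w'.re.re : ℝ) (w'.im.re : ℝ) d1 d3 r3 t1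
    have c2 := prd (w.re.im : ℝ) (w.im.im : ℝ) (w'.re.im : ℝ) (w'.im.im : ℝ) d2 d4 r4 t2
    rw [abs_le] at c1 c2 ⊢
    unfold hh
    push_cast
    constructor
    · linarith [c1.1, c2.1]
    · linarith [c1.2, c2.2]
  have hd2 : |Real.sqrt 2 * ((hh w : ℝ) - hh w')| ≤ 9 * R * D := by
    rw [abs_mul, abs_of_pos hs0]
    have hRD : 0 ≤ R * D := mul_nonneg hR0 hD0
    calc Real.sqrt 2 * |(hh w : ℝ) - hh w'| ≤ (3 / 2) * (6 * R * D) :=
          mul_le_mul hs1.le hd (abs_nonneg _) (by norm_num)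
      _ = 9 * R * D := by ring
  have hRD : 0 ≤ R * D := mul_nonneg hR0 hD0
  have Pd : |PP w - PP w'| ≤ 30 * (R * D) := by
    have e : PP w - PP w' = ((gg w : ℝ) - gg w') + Real.sqrt 2 * ((hh w : ℝ) - hh w') := by
      unfold PP; ring
    rw [e]
    refine (abs_add_le _ _).trans ?_
    linarith
  have Qd : |QQ w - QQ w'| ≤ 30 * (R * D) := by
    have e : QQ w - QQ w' = ((gg w : ℝ) - gg w') - Real.sqrt 2 * ((hh w : ℝ) - hh w') := by
      unfold QQ; ring
    rw [e]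
    refine (abs_sub _ _).trans ?_
    linarith
  obtain ⟨l1, l2⟩ := lo w (Or.inl rfl)
  obtain ⟨l3, l4⟩ := lo w' (Or.inr rfl)
  have hm : 0 < N₀ / (15 * R ^ 2) := by positivity
  have k1 := log_lip hm l1 l3
  have k2 := log_lip hm l2 l4
  have k3 : |Lw w - Lw w'| ≤ 900 * R ^ 3 * D / N₀ := by
    rw [Lw_eq hw, Lw_eq hw']
    have e : Real.log (PP w) - Real.log (QQ w) - (Real.log (PP w') - Real.log (QQ w')) =
        (Real.log (PP w) - Real.log (PP w')) - (Real.log (QQ w) - Real.log (QQ w')) := by ring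
    rw [e]
    refine (abs_sub _ _).trans ?_
    have k1' : |PP w - PP w'| / (N₀ / (15 * R ^ 2)) ≤ 30 * (R * D) / (N₀ / (15 * R ^ 2)) := by
      gcongr
    have k2' : |QQ w - QQ w'| / (N₀ / (15 * R ^ 2)) ≤ 30 * (R * D) / (N₀ / (15 * R ^ 2)) := by
      gcongr
    have e3 : 900 * R ^ 3 * D / N₀ = 30 * (R * D) / (N₀ / (15 * R ^ 2)) +
        30 * (R * D) / (N₀ / (15 * R ^ 2)) := by
      field_simp
      ring
    rw [e3]
    linarith
  rw [Ph_eq, Ph_eq]
  refine (max_lip _ _).trans ?_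
  have h8 : 1 ≤ 8 * le := by linarith
  have e4 : 1 - |Lw w| / (8 * le) - (1 - |Lw w'| / (8 * le)) = (|Lw w'| - |Lw w|) / (8 * le) := by ring
  rw [e4, abs_div, abs_of_pos (show 0 < 8 * le by linarith)]
  refine (div_le_self (abs_nonneg _) h8).trans ?_
  refine (abs_abs_sub_abs_le_abs_sub _ _).trans ?_
  rw [abs_sub_comm]
  exact k3

end Pool.Agent.TM32
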